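import Pool.Agent.MP_1246c0_nt.H25.SpecN

/-! The exceptions have density zero. -/

namespace Pool.Agent.MP_1246c0_nt.H25

open Finset Filter
open Pool.Agent.MP_1246c0_nt.H12

namespace MN

theorem ind_or (p q : Prop) : ind (p ∨ q) ≤ ind p + ind q := by
  by_cases a : p <;> by_cases b : q <;> simp [ind, a, b]

theorem ind_le {p q : Prop} (h : p → q) : ind p ≤ ind q := by
  by_cases a : p <;> by_cases b : q <;> simp_all [ind]

theorem ind5 {p a b c d e : Prop} (h : p → (((a ∨ b) ∨ c) ∨ d) ∨ e) :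
    ind p ≤ ind a + ind b + ind c + ind d + ind e := by
  linarith [ind_le h, ind_or (((a ∨ b) ∨ c) ∨ d) e, ind_or ((a ∨ b) ∨ c) d, ind_or (a ∨ b) c,
    ind_or a b]

end MN

theorem rowMN : OfMN := by
  rintro ⟨S, hS⟩ hW hC G N hL hU h1 h2 h3 h4 h5 ε e0
  have e : 0 < ε / 7 := by positivity
  obtain ⟨ja, hL⟩ := hL _ e
  obtain ⟨jb, hU⟩ := hU _ e
  obtain ⟨A, j0, hj, h3⟩ := h3 _ (max (max ja jb) 55) e
  obtain ⟨K, j, hU⟩ := hU j0 (by omega)
  obtain ⟨n0, h4⟩ := h4 K j _ e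
  obtain ⟨γ, h1⟩ := h1 A _ e
  obtain ⟨κ, h2⟩ := h2 _ (γ * 2 ^ (A + 1)) A e
  obtain ⟨J, hJ, h5⟩ := h5 _ (γ * 2 ^ (A + 1)) A κ e
  have jT : j ≤ 2 ^ max n0 j := (le_max_right _ _).trans Nat.lt_two_pow_self.le
  let π : Pa := ⟨j0, A + J, max n0 j, j, K⟩
  filter_upwards [hL j0 (by omega) (A + J), hU _ (S.D (max n0 j)) jT,
    h1 S π hS (show 55 ≤ j0 by omega), h2 S π hS (Nat.le_add_right A J), h3 S π hS rfl,
    h4 S π hS rfl rfl (le_max_left _ _) jT, h5 S hS] with X a b c1 c2 c3 c4 c5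
  have l := G.low X fun d => NdU X j0 K j (S.D (max n0 j)) d ∧ NdL X j0 (A + J) d ∧ ¬Gr d
  have m := (add_le_add (add_le_add (add_le_add (add_le_add c1 c2) c3) c4) c5)
  rw [← G.add, ← G.add, ← G.add, ← G.add] at m
  replace l := l.trans ((G.mono _ _ _ fun Sg m i1 p P v => MN.ind5 fun q => ?_).trans m)
  · have f : ∀ Q : ℕ → Prop, {d | d ≤ X ∧ Q d}.Finite := fun Q =>
      (Set.finite_le_nat X).subset fun _ h => h.1
    refine le_trans ?_ ((add_le_add (add_le_add a b) l).trans (le_of_eq (by ring)))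
    norm_cast
    refine le_trans (Set.ncard_le_ncard (fun d h => ?_) (((f _).union
      ((Set.finite_le_nat X).subset fun _ h => h.2.1)).union (f _)))
      ((Set.ncard_union_le _ _).trans (Nat.add_le_add_right (Set.ncard_union_le _ _) _))
    by_cases x : NdL X j0 (A + J) d
    · by_cases y : NdU X j0 K j (S.D (max n0 j)) d
      · exact .inr ⟨h.1, h.2.1, h.2.2.1, N.cov _ _ _ _ _ _ _ _ h.2.2.1 y x, y, x, h.2.2.2⟩
      · exact .inl (.inr ⟨h.2.2.1.pos, h.1, y⟩)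
    · exact .inl (.inl ⟨h.1, h.2.1, h.2.2.1, x⟩)
  · have x := N.nx S π X Sg m i1 p P v q.1 q.2.1
    rcases hC _ S _ P A J _ hS v.lb (by omega) q.2.2 with ⟨ℓ, μ, u1, u2, u3, u4, u5⟩ | ⟨a, u1, u2⟩
    · by_cases y : γ * 2 ^ (μ.a + 1) ≤ ℓ
      · exact .inl (.inl (.inl (.inl ⟨x, (hW _ ℓ S μ _ P J γ _ hS v.lb u4 u5 y).elim
          (fun h => ⟨_, u2, _, h⟩) fun h => ⟨_, (Nat.sub_le _ _).trans u2, _, h⟩⟩)))
      · have z : ℓ ≤ γ * 2 ^ (A + 1) := (not_le.1 y).le.trans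
          (Nat.mul_le_mul_left _ (Nat.pow_le_pow_right two_pos (by omega)))
        refine or_iff_not_imp_left.2 fun h => ⟨ℓ, μ, u1, z, u2, u3, u4, u5, fun μ' w1 w2 w3 => ?_⟩
        by_contra w
        exact h (.inl (.inl (.inr ⟨x, ℓ, z, μ', w1, w2, w3, w⟩)))
    · by_cases y : a + 2 ≤ tpX X π.j0
      · exact .inl (.inl (.inr ⟨x, a, u1, y, u2⟩))
      · exact .inl (.inr ⟨x, a, by omega, u2⟩)

end Pool.Agent.MP_1246c0_nt.H25
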