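import Pool.Agent.MP_1246c0_nt.H25.SpecC

/-! The pairings. -/

namespace Pool.Agent.MP_1246c0_nt.H25

open Finset Matrix Pool.Agent.MP_db5b97_nt.H85
open Pool.Agent.MP_1246c0_nt.H12

namespace PR

section pair

variable {X Y : Type} [AddCommGroup X] [AddCommGroup Y]

theorem card_ker {W : AddSubgroup X} (f : W →+ Y) {s : Set X} (h1 : ∀ x ∈ s, x ∈ W)
    (h2 : ∀ x : W, x.1 ∈ s ↔ f x = 0) : Nat.card f.ker = s.ncard := by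
  rw [← Nat.card_coe_set_eq]
  exact Nat.card_congr ⟨fun x => ⟨x.1.1, (h2 _).2 x.2⟩, fun x => ⟨⟨x.1, h1 _ x.2⟩, (h2 _).1 x.2⟩,
    fun _ => rfl, fun _ => rfl⟩

theorem card_eq (f : X →+ Y) : Nat.card X = Nat.card f.ker * Nat.card f.range := by
  rw [← AddSubgroup.index_ker, AddSubgroup.card_mul_index]

theorem pair_le [Finite X] [Finite Y] (hQ : SQF) (W : AddSubgroup X) (V : AddSubgroup Y)
    (hY : ∀ y : Y, y + y = 0) (p : X → Y → F2)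
    (h1 : ∀ w ∈ W, ∀ v ∈ V, ∀ v' ∈ V, p w (v + v') = p w v + p w v')
    (h2 : ∀ w ∈ W, ∀ w' ∈ W, ∀ v ∈ V, p (w + w') v = p w v + p w' v) :
    (W : Set X).ncard * {v | v ∈ V ∧ ∀ w ∈ W, p w v = 0}.ncard ≤
      {w | w ∈ W ∧ ∀ v ∈ V, p w v = 0}.ncard * (V : Set Y).ncard := by
  let b : W →+ V →+ F2 := AddMonoidHom.mk'
    (fun w => AddMonoidHom.mk' (fun v => p w v) fun v v' => h1 _ w.2 _ v.2 _ v'.2)
    fun w w' => AddMonoidHom.ext fun v => h2 _ w.2 _ w'.2 _ v.2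
  obtain ⟨e, -, h⟩ := hQ.dual V fun x => Subtype.ext (hY x)
  have : Finite (V →+ F2) := Nat.finite_of_card_ne_zero (e ▸ Nat.card_pos.ne')
  rw [← card_ker b (s := {w | w ∈ W ∧ ∀ v ∈ V, p w v = 0}) (fun _ h => h.1) fun x =>
      ⟨fun h => AddMonoidHom.ext fun v => h.2 _ v.2,
        fun h => ⟨x.2, fun v hv => DFunLike.congr_fun h ⟨v, hv⟩⟩⟩,
    ← card_ker b.flip (s := {v | v ∈ V ∧ ∀ w ∈ W, p w v = 0}) (fun _ h => h.1) fun x =>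
      ⟨fun h => AddMonoidHom.ext fun v => h.2 _ v.2,
        fun h => ⟨x.2, fun v hv => DFunLike.congr_fun h ⟨v, hv⟩⟩⟩,
    ← Nat.card_coe_set_eq, ← Nat.card_coe_set_eq, SetLike.coe_sort_coe, SetLike.coe_sort_coe,
    card_eq b, ← (h b.flip.ker).1, mul_assoc, mul_comm (Nat.card b.range)]
  refine Nat.mul_le_mul_left _ (Nat.mul_le_mul_left _ (Nat.card_le_card_of_injective
    (fun μ => ⟨μ.1, fun v hv => ?_⟩) fun μ μ' e => Subtype.ext (congrArg (·.1) e)))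
  obtain ⟨w, e⟩ := μ.2
  exact e ▸ DFunLike.congr_fun hv w

theorem pair_eq [Finite X] [Finite Y] (hQ : SQF) (W : AddSubgroup X) (V : AddSubgroup Y)
    (hX : ∀ x : X, x + x = 0) (hY : ∀ y : Y, y + y = 0) (p : X → Y → F2)
    (h1 : ∀ w ∈ W, ∀ v ∈ V, ∀ v' ∈ V, p w (v + v') = p w v + p w v')
    (h2 : ∀ w ∈ W, ∀ w' ∈ W, ∀ v ∈ V, p (w + w') v = p w v + p w' v) :
    {w | w ∈ W ∧ ∀ v ∈ V, p w v = 0}.ncard * (V : Set Y).ncard =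
      (W : Set X).ncard * {v | v ∈ V ∧ ∀ w ∈ W, p w v = 0}.ncard :=
  le_antisymm (by
    rw [mul_comm, mul_comm (W : Set X).ncard]
    exact pair_le hQ V W hX (fun v w => p w v) (fun v hv w hw w' hw' => h2 w hw w' hw' v hv)
      fun v hv v' hv' w hw => h1 w hw v hv v' hv') (pair_le hQ W V hY p h1 h2)

/-- a subgroup of a group of exponent two -/
def sb (hX : ∀ x : X, x + x = 0) (s : Set X) (h0 : 0 ∈ s) (h : ∀ x ∈ s, ∀ y ∈ s, x + y ∈ s) :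
    AddSubgroup X where
  carrier := s
  zero_mem' := h0
  add_mem' := fun a b => h _ a _ b
  neg_mem' := fun {x} a => by rwa [neg_eq_of_add_eq_zero_left (hX x)]

theorem mu_le {i j : ℕ} (h : i ≤ j) : Mu X j ≤ Mu X i := by
  rintro _ ⟨y, rfl⟩
  exact ⟨2 ^ (j - i) • y, by rw [nsmulAddMonoidHom_apply, nsmulAddMonoidHom_apply, ← mul_nsmul,
    ← pow_add, Nat.sub_add_cancel h]⟩

end pair

theorem ex2 {κ : Type} {ℓ : ℕ} (x : κ → Vb ℓ) : x + x = 0 :=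
  funext fun _ => funext fun _ => CharTwo.add_self_eq_zero _

theorem f2_ext {a b : F2} (h : a = 0 ↔ b = 0) : a = b := by
  revert a b
  decide

variable {ι : Type} [Fintype ι] [DecidableEq ι] {ℓ : ℕ} {Φ : Frm} {μ : Md ℓ} {pr : ι → ℕ}
  {P J j : ℕ} {i1 : ι} {w w' : Option ι ⊕ Bool → Vb ℓ} {ψ ψ' : Ga → Fin ℓ → ℤ}

/-- reduction -/
def rd (y : Fin ℓ → ℤ) : Vb ℓ := fun i => (y i : F2)

theorem rd_dot (w : Vb ℓ) (y : Fin ℓ → ℤ) : ((lf w ⬝ᵥ y : ℤ) : F2) = w ⬝ᵥ rd y := by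
  simp [dotProduct, lf, rd]

theorem rd_pow (g : Matrix (Fin ℓ) (Fin ℓ) ℤ) (k : ℕ) (y : Fin ℓ → ℤ) :
    rd ((toLin' g ^ k) y) = bar g ^ k *ᵥ rd y := by
  induction k with
  | zero => simp
  | succ k ih =>
    rw [pow_succ', pow_succ', Module.End.mul_apply, ← mulVec_mulVec, ← ih]
    funext i
    simp [rd, bar, mulVec, dotProduct]

theorem rd_neg (k : ℕ) (y : Fin ℓ → ℤ) :
    rd (((-1) ^ k : Module.End ℤ (Fin ℓ → ℤ)) y) = rd y := by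
  rcases neg_one_pow_eq_or (Module.End ℤ (Fin ℓ → ℤ)) k with h | h <;> rw [h]
  · rfl
  · funext i
    simp [rd]

theorem two_dvd (d n : ℕ) (g : Matrix (Fin ℓ) (Fin ℓ) ℤ) (ψ : Ga → Fin ℓ → ℤ) (p : Ga × Ga)
    {w : Vb ℓ} (h : w ᵥ* bar g ^ (kap n p.1).val = w) :
    (2 : ℤ) ∣ lf w ⬝ᵥ Eo d n (toLin' g) ψ p := by
  refine (ZMod.intCast_zmod_eq_zero_iff_dvd _ 2).1 ?_
  rw [Eo, dotProduct_sub, dotProduct_sub, dotProduct_smul, Int.cast_sub, Int.cast_sub, rd_dot,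
    rd_dot w (acn _ _ _ _ _), acn, Module.End.mul_apply, rd_neg, rd_pow, dotProduct_mulVec, h,
    sub_self, sub_zero, two_nsmul, Int.cast_add, CharTwo.add_self_eq_zero]

omit [DecidableEq ι] in
theorem one (hΦ : Ax1 Φ) (h : W1 Φ μ pr P i1 w) (ψ : Ga → Fin ℓ → ℤ) :
    (2 : ℤ) ∣ Pw Φ μ pr P w ψ := by
  refine dvd_sum fun ρ _ => two_dvd _ _ _ _ _ ?_
  rcases ρ with o | _ | _
  · exact h.fix o
  · simp [rws, hΦ.v.kcj]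
  · rw [rws, p4]
    split_ifs with h5 h3
    · generalize (kap μ.n _).val = k
      induction k with
      | zero => simp
      | succ k ih => rw [pow_succ, ← vecMul_vecMul, ih, h.five h5]
    · simp [hΦ.z.kmul, hΦ.v.kf2, hΦ.v.ksg _ 2 Nat.prime_two]
    · simp [hΦ.v.kf2]

omit [DecidableEq ι] in
theorem Pw_add (w : Option ι ⊕ Bool → Vb ℓ) (ψ ψ' : Ga → Fin ℓ → ℤ) :
    Pw Φ μ pr P w (ψ + ψ') = Pw Φ μ pr P w ψ + Pw Φ μ pr P w ψ' := by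
  rw [Pw, Pw, Pw, ← sum_add_distrib]
  refine sum_congr rfl fun ρ _ => ?_
  rw [← dotProduct_add, Eo, Eo, Eo, Pi.add_apply, Pi.add_apply, map_add]
  congr 1
  module

omit [DecidableEq ι] in
theorem Pw_two (w : Option ι ⊕ Bool → Vb ℓ) (ψ : Ga → Fin ℓ → ℤ) :
    Pw Φ μ pr P w (fun h => 2 • ψ h) = 2 * Pw Φ μ pr P w ψ := by
  rw [two_mul, ← Pw_add]
  congr 1
  exact funext fun h => two_nsmul _

omit [DecidableEq ι] in
theorem W1_add (h : W1 Φ μ pr P i1 w) (h' : W1 Φ μ pr P i1 w') : W1 Φ μ pr P i1 (w + w') :=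
  ⟨by rw [Pi.add_apply, h.one, h'.one, add_zero],
    fun e => by rw [Pi.add_apply, h.two e, h'.two e, add_zero],
    fun o => by rw [Pi.add_apply, add_vecMul, h.fix, h'.fix],
    fun e => by rw [Pi.add_apply, add_vecMul, h.five e, h'.five e],
    fun e => add_mem (h.four e) (h'.four e)⟩

theorem lf_zero : lf (0 : Vb ℓ) = 0 := funext fun _ => rfl

omit [DecidableEq ι] in
theorem ws_down (hC : SCC) (h : w ∈ Ws Φ μ pr P i1 (j + 1)) (hj : 1 ≤ j) :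
    w ∈ Ws Φ μ pr P i1 j := by
  refine ⟨h.1, fun ρ hρ => ?_⟩
  have := hC.dbl _ _ _ _ _ _ _ _ hρ
  rw [Nat.sub_add_cancel hj] at this
  have := h.2 _ this
  rwa [Pw_two, pow_succ', mul_dvd_mul_iff_left two_ne_zero] at this

omit [DecidableEq ι] in
theorem cc_down (hC : SCC) {i : ℕ} (hi : i ≤ j) (h : CC Φ μ pr P j ψ) : CC Φ μ pr P i ψ :=
  hC.mono _ _ _ _ _ _ _ _ _ (mu_le hi) h

variable (hC : SCC) (hΦ : Ax1 Φ) (hL : Lb pr P i1) (hμ : μ.Ok J)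
include hC hΦ hL hμ

omit hΦ hL in
theorem ad (hj : j ≤ J) : Ad (toLin' μ.g) μ.n (Mu _ j) :=
  (hC.adm _ _ _ _ _ hμ.adm).1 j _ (by have := hμ.le; omega)

theorem row (hj : j ≤ J) (h : CC Φ μ pr P j ψ) (x : Option ι ⊕ Bool → Fin ℓ → ℤ) (c : ℤ)
    (h0 : dd pr P % 4 = 1 → x (.inl none) = 0) (hx : ∀ ρ i, c ∣ x ρ i) :
    c * 2 ^ j ∣ ∑ ρ, x ρ ⬝ᵥ Eo (dd pr P) μ.n (toLin' μ.g) ψ (rws Φ pr P ρ) := by
  obtain ⟨-, od, -, -, -, -, -, -, -, -, -, -, l⟩ := hC.lab ι Φ pr P i1 hΦ hL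
  have a := ad hC hμ hj
  have k : ∀ ρ y, y ∈ Mu (Fin ℓ → ℤ) j → c * 2 ^ j ∣ x ρ ⬝ᵥ y := by
    rintro ρ _ ⟨y, rfl⟩
    exact dvd_sum fun i _ => mul_dvd_mul (hx ρ i) ⟨y i, by simp⟩
  refine dvd_sum fun ρ _ => ?_
  rcases ρ with (_ | i) | _ | _
  · by_cases e : dd pr P % 4 = 1
    · rw [h0 e, zero_dotProduct]
      exact dvd_zero _
    · exact k _ _ (h.two (by have := Nat.odd_iff.1 od; omega))
  · exact k _ _ (hC.odd _ _ _ _ _ _ _ _ _ hΦ a h (hL.odd i)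
      ((l _ (hL.odd i).1).2 (.inr (.inl ⟨i, rfl⟩))))
  · exact k _ _ (hC.inf _ _ _ _ _ _ _ _ hΦ a h)
  · exact k _ _ h.four

theorem dvd (hj : j ≤ J) (hw : W1 Φ μ pr P i1 w) (h : CC Φ μ pr P j ψ) :
    (2 : ℤ) ^ j ∣ Pw Φ μ pr P w ψ := by
  simpa only [one_mul, Pw] using row hC hΦ hL hμ hj h (fun ρ => lf (w ρ)) 1
    (fun e => by rw [hw.two e, lf_zero]) fun _ _ => one_dvd _

theorem padd (hj : j ≤ J) (hw : W1 Φ μ pr P i1 w) (hw' : W1 Φ μ pr P i1 w')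
    (h : CC Φ μ pr P j ψ) :
    (2 : ℤ) ^ (j + 1) ∣ Pw Φ μ pr P (w + w') ψ - (Pw Φ μ pr P w ψ + Pw Φ μ pr P w' ψ) := by
  have := row hC hΦ hL hμ hj h (fun ρ => lf ((w + w') ρ) - (lf (w ρ) + lf (w' ρ))) 2
    (fun e => by simp [hw.two e, hw'.two e, lf_zero]) fun ρ i =>
      (ZMod.intCast_zmod_eq_zero_iff_dvd _ 2).1 (by simp [lf])
  simpa only [sub_dotProduct, add_dotProduct, sum_sub_distrib, sum_add_distrib, ← pow_succ',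
    Pw] using this

theorem det (h1 : 1 ≤ j) (hj : j ≤ J) (h : CC Φ μ pr P j ψ) (h' : CC Φ μ pr P j ψ')
    (e : red Φ pr ψ = red Φ pr ψ') : ∃ ρ, CC Φ μ pr P (j - 1) ρ ∧ ∀ h, ψ h - ψ' h = 2 • ρ h := by
  obtain ⟨-, -, -, -, -, -, -, -, -, -, -, -, l⟩ := hC.lab ι Φ pr P i1 hΦ hL
  have c := (hC.add _ _ _ _ _ _ _ _ _ hΦ.z h h').2
  have k : ∀ o, (ψ - ψ') (Φ.sg (po pr o)) ∈ Mu (Fin ℓ → ℤ) 1 := fun o => by
    have : ∀ i, (2 : ℤ) ∣ (ψ - ψ') (Φ.sg (po pr o)) i := fun i =>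
      (ZMod.intCast_eq_intCast_iff_dvd_sub _ _ 2).1 (congrFun (congrFun e o) i).symm
    choose y hy using this
    exact ⟨y, funext fun i => by simpa using (hy i).symm⟩
  choose ρ hρ using hC.det _ _ _ _ _ _ _ _ _ hΦ (ad hC hμ hj) (mu_le h1)
    (ad hC hμ (h1.trans hj)).1 hL.prime hL.md c fun q hq hP hs => by
      rcases (l q hq).1 hs with e | ⟨i, rfl⟩ | ⟨rfl, -⟩
      · exact absurd e hP
      · exact k (some i)
      · exact k none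
  refine ⟨ρ, hC.hlf _ _ _ _ _ 1 _ _ _ hμ.adm.tf ?_, fun h => (hρ h).symm⟩
  rw [Nat.add_sub_cancel' h1]
  exact (funext hρ : _ = ψ - ψ') ▸ c

theorem val (h1 : 1 ≤ j) (hj : j ≤ J) (hw : w ∈ Ws Φ μ pr P i1 j) (h : CC Φ μ pr P j ψ) :
    pg Φ μ pr P j w (red Φ pr ψ) = 0 ↔ (2 : ℤ) ^ (j + 1) ∣ Pw Φ μ pr P w ψ := by
  classical
  rw [pg, ite_eq_left_iff]
  refine ⟨fun a => by_contra fun b => one_ne_zero (a fun c => b (c ψ h rfl)),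
    fun a b => (b fun ψ' h' e => ?_).elim⟩
  obtain ⟨ρ, r, s⟩ := det hC hΦ hL hμ h1 hj h' h e
  rw [show ψ' = ψ + fun h => 2 • ρ h from funext fun h => sub_eq_iff_eq_add'.1 (s h), Pw_add,
    Pw_two]
  exact dvd_add a (pow_succ' (2 : ℤ) j ▸ mul_dvd_mul_left 2 (hw.2 ρ r))

theorem val' (h1 : 1 ≤ j) (hj : j ≤ J) (hw : w ∈ Ws Φ μ pr P i1 j) (h : CC Φ μ pr P j ψ) {q : ℤ}
    (e : Pw Φ μ pr P w ψ = 2 ^ j * q) : pg Φ μ pr P j w (red Φ pr ψ) = q := by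
  refine f2_ext ?_
  rw [val hC hΦ hL hμ h1 hj hw h, e, pow_succ, mul_dvd_mul_iff_left (by positivity)]
  exact (ZMod.intCast_zmod_eq_zero_iff_dvd _ 2).symm

theorem v_add (h1 : 1 ≤ j) (hj : j ≤ J) :
    ∀ v ∈ Vs Φ μ pr P j, ∀ v' ∈ Vs Φ μ pr P j, v + v' ∈ Vs Φ μ pr P j ∧ ∀ w ∈ Ws Φ μ pr P i1 j,
      pg Φ μ pr P j w (v + v') = pg Φ μ pr P j w v + pg Φ μ pr P j w v' := by
  rintro _ ⟨ψ, h, rfl⟩ _ ⟨ψ', h', rfl⟩
  have c := (hC.add _ _ _ _ _ _ _ _ _ hΦ.z h h').1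
  have e : red Φ pr (ψ + ψ') = red Φ pr ψ + red Φ pr ψ' :=
    funext fun o => funext fun i => Int.cast_add _ _
  refine ⟨⟨_, c, e⟩, fun w hw => ?_⟩
  obtain ⟨q, hq⟩ := dvd hC hΦ hL hμ hj hw.1 h
  obtain ⟨q', hq'⟩ := dvd hC hΦ hL hμ hj hw.1 h'
  rw [← e, val' hC hΦ hL hμ h1 hj hw h hq, val' hC hΦ hL hμ h1 hj hw h' hq',
    val' hC hΦ hL hμ h1 hj hw c (q := q + q') (by rw [Pw_add, hq, hq', mul_add]), Int.cast_add]

theorem w_add (h1 : 1 ≤ j) (hj : j ≤ J) :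
    ∀ w ∈ Ws Φ μ pr P i1 j, ∀ w' ∈ Ws Φ μ pr P i1 j, w + w' ∈ Ws Φ μ pr P i1 j ∧
      ∀ v ∈ Vs Φ μ pr P j,
        pg Φ μ pr P j (w + w') v = pg Φ μ pr P j w v + pg Φ μ pr P j w' v := by
  intro w hw w' hw'
  have m : w + w' ∈ Ws Φ μ pr P i1 j := ⟨W1_add hw.1 hw'.1, fun ψ h => by
    have := padd hC hΦ hL hμ (by omega) hw.1 hw'.1 h
    rw [Nat.sub_add_cancel h1] at this
    exact (dvd_sub_left (dvd_add (hw.2 ψ h) (hw'.2 ψ h))).1 this⟩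
  refine ⟨m, ?_⟩
  rintro _ ⟨ψ, h, rfl⟩
  obtain ⟨q, hq⟩ := dvd hC hΦ hL hμ hj hw.1 h
  obtain ⟨q', hq'⟩ := dvd hC hΦ hL hμ hj hw'.1 h
  obtain ⟨r, hr⟩ := padd hC hΦ hL hμ hj hw.1 hw'.1 h
  rw [val' hC hΦ hL hμ h1 hj hw h hq, val' hC hΦ hL hμ h1 hj hw' h hq',
    val' hC hΦ hL hμ h1 hj m h (q := q + q' + (r + r)) (by linear_combination hr + hq + hq')]
  simp [CharTwo.add_self_eq_zero]

omit hC hL hμ [DecidableEq ι] in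
theorem v_zero : 0 ∈ Vs Φ μ pr P j :=
  ⟨0, ⟨by simp, ⟨⊤, hΦ.z.opt, by simp⟩, by simp, by simp, by simp [Eo], by simp [Eo]⟩,
    funext fun _ => funext fun _ => Int.cast_zero⟩

omit hC hΦ hL hμ [DecidableEq ι] in
theorem w_zero : 0 ∈ Ws Φ μ pr P i1 j :=
  ⟨⟨rfl, fun _ => rfl, by simp, by simp, fun _ => zero_mem _⟩, by simp [Pw, lf_zero]⟩

theorem ws_succ (h1 : 1 ≤ j) (hj : j ≤ J) (w : Option ι ⊕ Bool → Vb ℓ) :
    w ∈ Ws Φ μ pr P i1 (j + 1) ↔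
      w ∈ Ws Φ μ pr P i1 j ∧ ∀ v ∈ Vs Φ μ pr P j, pg Φ μ pr P j w v = 0 :=
  ⟨fun h => ⟨ws_down hC h h1, fun _ _ => if_pos fun ψ c _ => h.2 ψ c⟩, fun h =>
    ⟨h.1.1, fun ψ c => (val hC hΦ hL hμ h1 hj h.1 c).1 (h.2 _ ⟨ψ, c, rfl⟩)⟩⟩

theorem vs_us (h1 : 1 ≤ j) (hj : j + 1 ≤ J) : Vs Φ μ pr P (j + 1) ⊆ Us Φ μ pr P i1 j := by
  rintro _ ⟨ψ, h, rfl⟩
  have c := cc_down hC j.le_succ h
  exact ⟨⟨ψ, c, rfl⟩, fun w hw =>
    (val hC hΦ hL hμ h1 (by omega) hw c).2 (dvd hC hΦ hL hμ hj hw.1 h)⟩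

theorem pair (hQ : SQF) (h1 : 1 ≤ j) (hj : j ≤ J) (s : Set (Option ι ⊕ Bool → Vb ℓ))
    (hs : s ⊆ Ws Φ μ pr P i1 j) (h0 : 0 ∈ s) (h : ∀ x ∈ s, ∀ y ∈ s, x + y ∈ s) :
    {w | w ∈ s ∧ ∀ v ∈ Vs Φ μ pr P j, pg Φ μ pr P j w v = 0}.ncard * (Vs Φ μ pr P j).ncard =
      s.ncard * {v | v ∈ Vs Φ μ pr P j ∧ ∀ w ∈ s, pg Φ μ pr P j w v = 0}.ncard :=
  pair_eq hQ (sb ex2 s h0 h)
    (sb ex2 _ (v_zero hΦ) fun x a y b => (v_add hC hΦ hL hμ h1 hj x a y b).1) ex2 ex2 _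
    (fun w a v b v' c => (v_add hC hΦ hL hμ h1 hj v b v' c).2 w (hs a))
    fun w a w' b v c => (w_add hC hΦ hL hμ h1 hj w (hs a) w' (hs b)).2 v c

theorem ub (hQ : SQF) (E : Finset ι) :
    {v | v ∈ Vs Φ μ pr P 1 ∧ ∀ w ∈ Ws Φ μ pr P i1 1, (∀ l ∈ E, w (.inl (some l)) = 0) →
      pg Φ μ pr P 1 w v = 0}.ncard ≤ (Us Φ μ pr P i1 1).ncard * 2 ^ (ℓ * E.card) := by
  have hj : 1 ≤ J := by have := hμ.two; omega
  have a := fun x a y b => (w_add hC hΦ hL hμ le_rfl hj x a y b).1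
  set s := {w | w ∈ Ws Φ μ pr P i1 1 ∧ ∀ l ∈ E, w (.inl (some l)) = 0}
  have z : 0 ∈ s := ⟨w_zero, fun _ _ => rfl⟩
  have e1 := pair hC hΦ hL hμ hQ le_rfl hj _ subset_rfl w_zero a
  have e2 := pair hC hΦ hL hμ hQ le_rfl hj s (fun _ h => h.1) z fun x b y c =>
    ⟨a x b.1 y c.1, fun l hl => by rw [Pi.add_apply, b.2 l hl, c.2 l hl, add_zero]⟩
  let f : sb ex2 _ w_zero a →+ E → Vb ℓ :=
    AddMonoidHom.mk' (fun w l => w.1 (.inl (some l.1))) fun _ _ => rfl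
  have e3 : (Ws Φ μ pr P i1 1).ncard ≤ s.ncard * 2 ^ (ℓ * E.card) := by
    rw [← card_ker f (s := s) (fun _ h => h.1) fun x => ⟨fun h => funext fun l => h.2 _ l.2,
      fun h => ⟨x.2, fun l hl => congrFun h ⟨l, hl⟩⟩⟩, ← Nat.card_coe_set_eq]
    refine (card_eq f).trans_le (Nat.mul_le_mul_left _ ((AddSubgroup.card_le_card_addGroup _).trans
      ?_))
    simp [pow_mul]
  refine Nat.le_of_mul_le_mul_left ?_ ((Set.ncard_pos (Set.toFinite s)).2 ⟨0, z⟩)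
  rw [mul_left_comm, mul_comm (Us Φ μ pr P i1 1).ncard]
  refine le_trans ?_ (Nat.mul_le_mul_right _ e3)
  refine le_trans (le_of_eq ?_) (e2.symm.trans_le (le_of_le_of_eq (Nat.mul_le_mul_right _
    (Set.ncard_le_ncard (fun w h => And.intro h.1.1 h.2) (Set.toFinite _))) e1))
  simp only [s, Set.mem_ofPred_eq, and_imp]

end PR

open PR in
theorem rowPR : OfPR := fun hQ hC =>
  { one := fun _ _ _ _ _ _ _ _ _ _ hΦ _ =>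
      ⟨⟨fun h => h.1, fun h => ⟨h, fun ψ _ => one hΦ h ψ⟩⟩, one hΦ⟩
    dvd := fun _ _ _ _ _ _ _ _ _ _ _ _ _ => dvd hC
    val := fun _ _ _ _ _ _ _ _ _ _ _ _ _ => val hC
    det := fun _ _ _ _ _ _ _ _ _ _ _ _ _ => PR.det hC
    step := fun _ _ _ _ _ _ _ _ _ _ _ hΦ hL hμ h1 hj => by
      have hj' := (Nat.le_succ _).trans hj
      refine ⟨ws_succ hC hΦ hL hμ h1 hj', vs_us hC hΦ hL hμ h1 hj, ?_⟩
      rw [Set.ext (ws_succ hC hΦ hL hμ h1 hj')]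
      exact pair hC hΦ hL hμ hQ h1 hj' _ subset_rfl w_zero
        fun x a y b => (w_add hC hΦ hL hμ h1 hj' x a y b).1
    mono := fun _ _ _ _ _ _ _ _ _ i j _ hΦ hL hμ h1 hi hj => by
      refine ⟨fun _ ⟨ψ, h, e⟩ => ⟨ψ, cc_down hC hi h, e⟩, ?_, fun h2 _ ⟨ψ, h, e⟩ =>
        vs_us hC hΦ hL hμ le_rfl hμ.two ⟨ψ, cc_down hC h2 h, e⟩⟩
      clear hj
      induction j, hi using Nat.le_induction with
      | base => exact subset_rfl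
      | succ k hk ih => exact fun w h => ih (ws_down hC h (h1.trans hk))
    grp := fun _ _ _ _ _ _ _ _ _ _ _ hΦ hL hμ h1 hj =>
      ⟨v_zero hΦ, w_zero, v_add hC hΦ hL hμ h1 hj, w_add hC hΦ hL hμ h1 hj⟩
    ub := fun _ _ _ _ _ _ _ _ _ _ E hΦ hL hμ => ub hC hΦ hL hμ hQ E }

end Pool.Agent.MP_1246c0_nt.H25
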